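import Mathlib

namespace Pool.Agent.Results.MP_d0f2af_nt.TwoPrimes

open Finset

/-- The sum of the positive divisors. -/
def sig (n : ℕ) : ℕ := ∑ d ∈ n.divisors, d

/-- The sum of the unitary divisors. -/
def usigma (n : ℕ) : ℕ := ∑ d ∈ n.divisors.filter (fun d => Nat.gcd d (n / d) = 1), d

theorem usigma_eq {p q : ℕ} (hp : p.Prime) (hq : q.Prime) (hpq : p ≠ q) (a b : ℕ) :
    usigma (p ^ a * q ^ b) = (∑ i ∈ ({0, a} : Finset ℕ), p ^ i) * ∑ j ∈ ({0, b} : Finset ℕ), q ^ j := by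
  have hc : ∀ i j, (p ^ i).Coprime (q ^ j) := fun i j => Nat.Coprime.pow i j ((Nat.coprime_primes hp hq).2 hpq)
  have hdiv : ∀ i ≤ a, ∀ j ≤ b, p ^ a * q ^ b / (p ^ i * q ^ j) = p ^ (a - i) * q ^ (b - j) := by
    intro i hi j hj
    refine Nat.div_eq_of_eq_mul_right (Nat.mul_pos (pow_pos hp.pos _) (pow_pos hq.pos _)) ?_
    rw [mul_mul_mul_comm, ← pow_add, ← pow_add, Nat.add_sub_cancel' hi, Nat.add_sub_cancel' hj]
  rw [sum_mul_sum, ← sum_product', usigma]
  symm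
  refine sum_bij (fun x _ => p ^ x.1 * q ^ x.2) ?_ ?_ ?_ (fun _ _ => rfl)
  · rintro ⟨i, j⟩ h
    simp only [mem_product, mem_insert, mem_singleton] at h
    have hi : i ≤ a := by omega
    have hj : j ≤ b := by omega
    refine mem_filter.2 ⟨Nat.mem_divisors.2 ⟨Nat.mul_dvd_mul (pow_dvd_pow p hi) (pow_dvd_pow q hj),
      (Nat.mul_pos (pow_pos hp.pos _) (pow_pos hq.pos _)).ne'⟩, ?_⟩
    rw [hdiv i hi j hj]
    refine Nat.Coprime.mul_left (Nat.Coprime.mul_right ?_ (hc _ _)) (Nat.Coprime.mul_right (hc _ _).symm ?_)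
    · rcases h.1 with rfl | rfl <;> simp
    · rcases h.2 with rfl | rfl <;> simp
  · rintro ⟨i, j⟩ _ ⟨k, l⟩ _ h
    have h1 := congrArg (fun n => n.factorization p) h
    have h2 := congrArg (fun n => n.factorization q) h
    simp [Nat.factorization_mul, hp.ne_zero, hq.ne_zero, hp.factorization, hq.factorization, hpq,
      hpq.symm] at h1 h2
    exact Prod.ext h1 h2
  · intro d hd
    obtain ⟨h1, h2⟩ := mem_filter.1 hd
    obtain ⟨d1, d2, e1, e2, rfl⟩ := (Nat.dvd_mul).1 (Nat.dvd_of_mem_divisors h1)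
    obtain ⟨i, hi, rfl⟩ := (Nat.dvd_prime_pow hp).1 e1
    obtain ⟨j, hj, rfl⟩ := (Nat.dvd_prime_pow hq).1 e2
    rw [hdiv i hi j hj] at h2
    refine ⟨(i, j), ?_, rfl⟩
    simp only [mem_product, mem_insert, mem_singleton]
    constructor
    · by_contra h
      exact hp.one_lt.ne' (Nat.eq_one_of_dvd_one (h2 ▸ Nat.dvd_gcd
        ((dvd_pow_self p (by omega)).mul_right _) ((dvd_pow_self p (by omega)).mul_right _)))
    · by_contra h
      exact hq.one_lt.ne' (Nat.eq_one_of_dvd_one (h2 ▸ Nat.dvd_gcd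
        ((dvd_pow_self q (by omega)).mul_left _) ((dvd_pow_self q (by omega)).mul_left _)))

theorem sig_eq {p q : ℕ} (hp : p.Prime) (hq : q.Prime) (hpq : p ≠ q) (a b : ℕ) :
    sig (p ^ a * q ^ b) = (∑ i ∈ range (a + 1), p ^ i) * ∑ j ∈ range (b + 1), q ^ j := by
  rw [sig, ← ArithmeticFunction.sigma_one_apply, ArithmeticFunction.isMultiplicative_sigma.map_mul_of_coprime
    (Nat.Coprime.pow a b ((Nat.coprime_primes hp hq).2 hpq)),
    ArithmeticFunction.sigma_one_apply_prime_pow hp, ArithmeticFunction.sigma_one_apply_prime_pow hq]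

theorem bound (t p a : ℕ) (h : t + 1 ≤ p) :
    t * ∑ i ∈ range (a + 1), p ^ i < (t + 1) * ∑ i ∈ ({0, a} : Finset ℕ), p ^ i := by
  obtain ⟨c, rfl⟩ := Nat.exists_eq_add_of_le h
  have h1 := geom_sum_mul_add (t + c) (a + 1)
  rw [show t + c + 1 = t + 1 + c by ring, pow_succ] at h1
  have h2 : (t + 1 + c) ^ a ≤ ∑ i ∈ ({0, a} : Finset ℕ), (t + 1 + c) ^ i :=
    single_le_sum (f := fun i => (t + 1 + c) ^ i) (fun _ _ => Nat.zero_le _) (by simp)
  have h3 : (t + 1 + c) ^ a ≤ ∑ i ∈ range (a + 1), (t + 1 + c) ^ i :=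
    single_le_sum (f := fun i => (t + 1 + c) ^ i) (fun _ _ => Nat.zero_le _) (by simp)
  nlinarith [Nat.mul_le_mul_left c h3, Nat.mul_le_mul_left (t + 1) h2]

theorem two {q : ℕ} (hq : q.Prime) (h3 : 3 ≤ q) (a b : ℕ)
    (h : (∑ i ∈ range (a + 1), 2 ^ i) * ∑ j ∈ range (b + 1), q ^ j =
      2 * ((∑ i ∈ ({0, a} : Finset ℕ), 2 ^ i) * ∑ j ∈ ({0, b} : Finset ℕ), q ^ j)) :
    2 ^ a * q ^ b = 108 := by
  have hb := bound 2 q b h3
  rcases a with _ | a
  · simp only [zero_add, range_one, sum_singleton, pow_zero, one_mul, pair_eq_singleton] at h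
    omega
  have h1 := geom_sum_mul_add 1 (a + 1 + 1)
  rw [sum_pair (by omega : 0 ≠ a + 1)] at h
  norm_num only [pow_succ 2 (a + 1), mul_one] at h1
  generalize ∑ i ∈ range (a + 1 + 1), 2 ^ i = S at h h1
  have hx : Even (2 ^ (a + 1)) := (Nat.even_pow.2 ⟨even_two, by omega⟩)
  generalize 2 ^ (a + 1) = x at *
  rcases b with _ | b
  · simp at h; omega
  rw [sum_pair (by omega : 0 ≠ b + 1)] at h
  have hq3 : q = 3 := by
    have e : ∑ j ∈ range (b + 1 + 1), q ^ j = q * (∑ j ∈ range (b + 1), q ^ j) + 1 := by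
      rw [sum_range_succ', mul_sum]; simp [pow_succ']
    rw [e, pow_succ' q b] at h
    have hd : (q : ℤ) ∣ 3 := ⟨S * ((∑ j ∈ range (b + 1), q ^ j : ℕ) : ℤ) - 2 * (1 + x) * q ^ b, by
      zify at h h1
      push_cast
      linear_combination -h + h1⟩
    have : q ≤ 3 := Nat.le_of_dvd (by norm_num) (Int.natCast_dvd_natCast.1 hd)
    omega
  subst hq3
  have h2 := geom_sum_mul_add 2 (b + 1 + 1)
  norm_num only [pow_succ 3 (b + 1)] at h2
  generalize ∑ j ∈ range (b + 1 + 1), 3 ^ j = T at h h2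
  have hy : 3 ^ (b + 1) = 3 ∨ 3 ^ (b + 1) = 9 ∨ 3 ^ (b + 1) = 27 ∨ 81 ≤ 3 ^ (b + 1) := by
    rcases b with _ | _ | _ | b
    · simp
    · simp
    · simp
    · exact Or.inr (Or.inr (Or.inr (Nat.pow_le_pow_right (n := 3) (by norm_num) (by omega : 4 ≤ _))))
  generalize 3 ^ (b + 1) = y at *
  have key : ((2 : ℤ) * x - 7) * (y - 3) = 24 := by
    zify at h h1 h2
    linear_combination 2 * h - 2 * (T : ℤ) * h1 - ((2 : ℤ) * x - 1) * h2
  obtain ⟨z, rfl⟩ := hx
  rcases hy with rfl | rfl | rfl | hy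
  · omega
  · omega
  · omega
  · exfalso
    push_cast at key
    have hy' : (81 : ℤ) ≤ y := by exact_mod_cast hy
    rcases le_or_gt (z : ℤ) 1 with hz | hz <;> nlinarith

theorem result (p q a b : ℕ) (hp : p.Prime) (hq : q.Prime) (hpq : p ≠ q)
    (h : sig (p ^ a * q ^ b) = 2 * usigma (p ^ a * q ^ b)) : p ^ a * q ^ b = 108 := by
  wlog hlt : p < q generalizing p q a b
  · rw [mul_comm] at h ⊢
    exact this q p b a hq hp hpq.symm h (by omega)
  rw [sig_eq hp hq hpq, usigma_eq hp hq hpq] at h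
  rcases hp.eq_two_or_odd' with rfl | ho
  · exact two hq (by omega) a b h
  · exfalso
    have h2 := hp.two_le
    have hp3 : 3 ≤ p := by obtain ⟨k, rfl⟩ := ho; omega
    have hq5 : 5 ≤ q := by
      by_contra hh
      obtain rfl : q = 4 := by omega
      exact absurd hq (by norm_num)
    have b1 := bound 2 p a hp3
    have b2 := bound 4 q b hq5
    have b3 := Nat.mul_lt_mul'' b1 b2
    rw [mul_mul_mul_comm, mul_mul_mul_comm (2 + 1), h] at b3
    omega

end Pool.Agent.Results.MP_d0f2af_nt.TwoPrimes
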